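import Pool.Agent.Work.MP_69d501_gt.Main

/-!
# The unknotting number and the unknotting sequence number of a virtual knot agree

Virtual knots are Gauss codes modulo Reidemeister moves; see `Pool.Agent.Work.MP_69d501_gt.Defs`
for all definitions.  The proof carries a crossing that has been changed through the later moves:
if the current code is `E`, the code that records the change is obtained from `E` by insertions
of the first and second Reidemeister moves.  Only a third move `E → E'` needs work: two new pairs
of crossings are created next to the third crossing of the triangle, a third move is made with
them, and the old pairs cancel.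
-/

set_option autoImplicit false

namespace Pool.Agent.Results.MP_69d501_gt.UnknottingEq

open Pool.Agent.Work.MP_69d501_gt

/-- For every virtual knot, the unknotting number equals the unknotting sequence number (both are
infinite or both are finite and equal). -/
theorem result : ∀ K : VirtualKnot, unknottingNumber K = unknottingSequenceNumber K := by
  intro K
  apply le_antisymm
  · apply le_sInf
    rintro n ⟨D, m, rfl, h, rfl⟩
    obtain ⟨E, C, h1, h2, h3, h4⟩ := exists_of_unknotsIn h
    apply sInf_le
    exact ⟨E, C, h1.symm, h2, h4, by rw [h3]⟩
  · apply le_sInf
    rintro n ⟨D, C, rfl, h2, h3, rfl⟩
    apply sInf_le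
    refine ⟨D, C.card + 0, rfl, UnknotsIn.changes D C 0 h2 (UnknotsIn.done _ h3), by simp⟩

end Pool.Agent.Results.MP_69d501_gt.UnknottingEq
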